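import Pool.Agent.H28.MCL.Targets

/-! Row COA of `mlc_modules`: many clusters. -/

set_option autoImplicit false

open Finset Filter Topology

namespace Pool.Agent.H19.MCL

open Pool.Agent.H28.MCL

theorem coa (hR : T_BBR) (hD : T_DTA) (hG : T_GEN) : T_COA := by
  intro k δ η hδ hη
  have hη2 : 0 < η ^ 2 := by positivity
  obtain ⟨D₀, hD₀⟩ := exists_nat_ge (16 / η ^ 2)
  set D : ℕ := max 2 D₀ with hDd
  have hD2 : 2 ≤ D := le_max_left _ _
  have hDr : 16 / η ^ 2 ≤ (D : ℝ) := hD₀.trans (by exact_mod_cast le_max_right 2 D₀)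
  have hD0 : (0 : ℝ) < D := by
    have : (2 : ℝ) ≤ D := by exact_mod_cast hD2
    linarith
  have hDi : 1 / (D : ℝ) ≤ η ^ 2 / 16 := by
    rw [div_le_iff₀ hη2] at hDr
    rw [div_le_iff₀ hD0]
    nlinarith
  set θ : ℝ := η ^ 2 / 1024 with hθ
  have hθ0 : 0 < θ := by positivity
  obtain ⟨κ, hκ, hκ1, hBB⟩ := hR k (δ * θ / 24) (by positivity)
  set s : ℝ := Real.sqrt (1 - κ / 4) with hs
  have hs0 : 0 ≤ s := Real.sqrt_nonneg _
  have hs1 : s < 1 := by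
    rw [hs, Real.sqrt_lt' one_pos]
    linarith
  have ht := tendsto_pow_atTop_nhds_zero_of_lt_one hs0 hs1
  have he := ht.eventually (gt_mem_nhds (by positivity : (0 : ℝ) < η ^ 2 / 64))
  obtain ⟨m₀, hm₀⟩ := eventually_atTop.1 he
  refine ⟨m₀, fun m hm hm1 => ?_⟩
  have h1 := hm₀ m hm
  refine hG k m D δ θ κ (1 / D + 4 * s ^ m + 64 * θ) η hm1 hD2 hδ hθ0 hκ hκ1 (by positivity) ?_
    (hBB m D hm1 hD2) (hD m D κ θ hm1 hD2 hκ hκ1 hθ0)
  rw [Real.sqrt_lt' hη, hθ]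
  linarith

end Pool.Agent.H19.MCL
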