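import Pool.Agent.H28.MCL.Targets

/-! Row MXR of `mlc_modules`: the maximal inequality, intervals on the right. -/

set_option autoImplicit false

open Finset Filter Topology

namespace Pool.Agent.H19.MCL

open Pool.Agent.H28.MCL

theorem mxr : T_MXR := by
  intro b θ x y S hb hθ hx hS hH
  have key : ∀ k v : ℕ, 0 < v → y < v + k →
      ∑ N ∈ S.filter (fun N => v ≤ N), (1 : ℝ) / N ≤
        2 / θ * ∑ n ∈ Finset.Ioc v (2 * y), b n / n := by
    intro k
    induction k with
    | zero =>
      intro v hv hy
      have he : S.filter (fun N => v ≤ N) = ∅ := by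
        rw [Finset.filter_eq_empty_iff]
        intro N hN h
        have := (Finset.mem_Icc.1 (hS hN)).2
        omega
      rw [he, Finset.sum_empty]
      have : 0 ≤ ∑ n ∈ Finset.Ioc v (2 * y), b n / n :=
        Finset.sum_nonneg fun n _ => div_nonneg (hb n) (Nat.cast_nonneg n)
      positivity
    | succ k ih =>
      intro v hv hy
      by_cases hvS : v ∈ S
      · obtain ⟨H, hH1, hHv, hHs⟩ := hH v hvS
        have hvy := (Finset.mem_Icc.1 (hS hvS)).2
        have h1 := ih (v + H) (by omega) (by omega)
        have hv0 : (0 : ℝ) < v := by exact_mod_cast hv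
        have hHr : (H : ℝ) ≤ v := by exact_mod_cast hHv
        have hsplit : S.filter (fun N => v ≤ N) ⊆
            Finset.Ico v (v + H) ∪ S.filter (fun N => v + H ≤ N) := by
          intro N hN
          rw [Finset.mem_filter] at hN
          rw [Finset.mem_union, Finset.mem_Ico, Finset.mem_filter]
          by_cases h : v + H ≤ N
          · exact Or.inr ⟨hN.1, h⟩
          · exact Or.inl ⟨hN.2, by omega⟩
        have h2 : ∑ N ∈ S.filter (fun N => v ≤ N), (1 : ℝ) / N ≤
            ∑ N ∈ Finset.Ico v (v + H), (1 : ℝ) / N +
              ∑ N ∈ S.filter (fun N => v + H ≤ N), (1 : ℝ) / N := by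
          refine (Finset.sum_le_sum_of_subset_of_nonneg hsplit fun _ _ _ => by positivity).trans ?_
          rw [← Finset.sum_union_inter]
          have : 0 ≤ ∑ N ∈ Finset.Ico v (v + H) ∩ S.filter (fun N => v + H ≤ N), (1 : ℝ) / N :=
            Finset.sum_nonneg fun _ _ => by positivity
          linarith
        have h3 : ∑ N ∈ Finset.Ico v (v + H), (1 : ℝ) / N ≤ H / v := by
          calc ∑ N ∈ Finset.Ico v (v + H), (1 : ℝ) / N ≤ ∑ N ∈ Finset.Ico v (v + H), (1 : ℝ) / v := by
                refine Finset.sum_le_sum fun N hN => ?_
                rw [Finset.mem_Ico] at hN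
                have : (v : ℝ) ≤ N := by exact_mod_cast hN.1
                exact one_div_le_one_div_of_le hv0 this
            _ = H / v := by
                rw [Finset.sum_const, Nat.card_Ico, nsmul_eq_mul]
                have : v + H - v = H := by omega
                rw [this]
                ring
        have h4 : θ * H / (2 * v) ≤ ∑ n ∈ Finset.Ioc v (v + H), b n / n := by
          calc θ * H / (2 * v) ≤ (∑ n ∈ Finset.Ioc v (v + H), b n) / (2 * v) :=
                div_le_div_of_nonneg_right hHs.le (by positivity)
            _ = ∑ n ∈ Finset.Ioc v (v + H), b n / (2 * v) := by rw [Finset.sum_div]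
            _ ≤ ∑ n ∈ Finset.Ioc v (v + H), b n / n := by
                refine Finset.sum_le_sum fun n hn => ?_
                rw [Finset.mem_Ioc] at hn
                have h5 : (0 : ℝ) < n := by exact_mod_cast (show 0 < n by omega)
                have h6 : (n : ℝ) ≤ 2 * v := by
                  have : n ≤ 2 * v := by omega
                  exact_mod_cast this
                exact div_le_div_of_nonneg_left (hb n) h5 h6
        have h5 : (H : ℝ) / v ≤ 2 / θ * ∑ n ∈ Finset.Ioc v (v + H), b n / n := by
          have : (H : ℝ) / v = 2 / θ * (θ * H / (2 * v)) := by field_simp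
          rw [this]
          exact mul_le_mul_of_nonneg_left h4 (by positivity)
        have h6 : ∑ n ∈ Finset.Ioc v (2 * y), b n / n =
            ∑ n ∈ Finset.Ioc v (v + H), b n / n + ∑ n ∈ Finset.Ioc (v + H) (2 * y), b n / n := by
          rw [Finset.sum_Ioc_consecutive (fun n => b n / (n : ℝ)) (by omega) (by omega)]
        rw [h6, mul_add]
        linarith
      · have h1 := ih (v + 1) (by omega) (by omega)
        have he : S.filter (fun N => v ≤ N) = S.filter (fun N => v + 1 ≤ N) := by
          apply Finset.filter_congr
          intro N hN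
          constructor
          · intro h
            rcases Nat.lt_or_ge v N with h' | h'
            · exact h'
            · exact absurd (show v = N by omega) (fun e => hvS (e ▸ hN))
          · intro h
            omega
        rw [he]
        refine h1.trans (mul_le_mul_of_nonneg_left ?_ (by positivity))
        refine Finset.sum_le_sum_of_subset_of_nonneg ?_ fun n _ _ =>
          div_nonneg (hb n) (Nat.cast_nonneg n)
        exact Finset.Ioc_subset_Ioc_left (Nat.le_succ v)
  have h1 := key (y + 1) x hx (by omega)
  have he : S.filter (fun N => x ≤ N) = S := by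
    rw [Finset.filter_eq_self]
    intro N hN
    exact (Finset.mem_Icc.1 (hS hN)).1
  rw [he] at h1
  refine h1.trans (mul_le_mul_of_nonneg_left ?_ (by positivity))
  exact Finset.sum_le_sum_of_subset_of_nonneg Finset.Ioc_subset_Icc_self fun n _ _ =>
    div_nonneg (hb n) (Nat.cast_nonneg n)

end Pool.Agent.H19.MCL
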