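import Pool.Agent.H28.MCL.Targets

/-! Row NRM of `mlc_modules`: the factors `1 + o(1)`. -/

set_option autoImplicit false

open Finset Filter Topology

namespace Pool.Agent.H19.MCL

open Pool.Agent.H28.MCL

theorem nrm : T_NRM := by
  intro m D q W ζ hD hq hW hζ
  have hq0 : (1 : ℝ) ≤ q := by exact_mod_cast hq
  have hW0 : (1 : ℝ) ≤ W := by exact_mod_cast hW
  have hD0 : (1 : ℝ) ≤ D := by exact_mod_cast hD
  set ε : ℝ := Real.log (1 + ζ) / (m + 1) with hε
  have hε0 : 0 < ε := div_pos (Real.log_pos (by linarith)) (by positivity)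
  have hpow : (1 + ε) ^ (m + 1) ≤ 1 + ζ := by
    have h1 : 1 + ε ≤ Real.exp ε := by
      have := Real.add_one_le_exp ε
      linarith
    calc (1 + ε) ^ (m + 1) ≤ (Real.exp ε) ^ (m + 1) := pow_le_pow_left₀ (by linarith) h1 _
      _ = Real.exp (((m + 1 : ℕ) : ℝ) * ε) := by rw [← Real.exp_nat_mul]
      _ = 1 + ζ := by
        have h2 : ((m + 1 : ℕ) : ℝ) * ε = Real.log (1 + ζ) := by
          rw [hε]
          push_cast
          field_simp
        rw [h2, Real.exp_log (by linarith)]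
  obtain ⟨K₀, hK₀⟩ := exists_nat_ge ((1 + D) * W * q / ε)
  refine ⟨K₀ + 1, fun A H T hH hT => ?_⟩
  have hHr : (1 + D) * W * q / ε < (H : ℝ) := by
    have : ((K₀ + 1 : ℕ) : ℝ) ≤ H := by exact_mod_cast hH
    push_cast at this
    linarith
  have hTr : (1 + D) * W * q / ε < (T : ℝ) := by
    have : ((K₀ + 1 : ℕ) : ℝ) ≤ T := by exact_mod_cast hT
    push_cast at this
    linarith
  have hc0 : 0 < (1 + D) * W * q / ε := by positivity
  have hH0 : (0 : ℝ) < H := by linarith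
  have hT0 : (0 : ℝ) < T := by linarith
  rw [div_lt_iff₀ hε0] at hHr hTr
  have a1 : (W : ℝ) / T ≤ ε := by
    rw [div_le_iff₀ hT0]
    have : (W : ℝ) ≤ (1 + D) * W * q := by
      have h3 : (1 : ℝ) ≤ (1 + D) * q := by nlinarith
      nlinarith
    linarith
  have a2 : (1 + D) * W / (H : ℝ) ≤ ε := by
    rw [div_le_iff₀ hH0]
    have : (1 + D : ℝ) * W ≤ (1 + D) * W * q := le_mul_of_one_le_right (by positivity) hq0
    linarith
  have a3 : (q : ℝ) / H ≤ ε := by
    rw [div_le_iff₀ hH0]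
    have h3 : (1 : ℝ) ≤ (1 + D) * W := by nlinarith
    have : (q : ℝ) ≤ (1 + D) * W * q := le_mul_of_one_le_left (by positivity) h3
    linarith
  obtain ⟨P, hP⟩ : ∃ P : ℝ, P = ∏ l, ((A l).card * ((T : ℝ) / W)) := ⟨_, rfl⟩
  have hP0 : 0 ≤ P := by
    rw [hP]
    exact Finset.prod_nonneg fun l _ => by positivity
  have hpp : pp W A T = P * (1 + W / T) ^ m := by
    unfold pp
    rw [hP, ← Fin.prod_const, ← Finset.prod_mul_distrib]
    refine Finset.prod_congr rfl fun l _ => ?_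
    field_simp
  have hmm : mm q W A H T = (H : ℝ) / q * P := by
    rw [hP]
    rfl
  clear hP
  have b1 : (1 + (W : ℝ) / T) ^ m ≤ (1 + ε) ^ m :=
    pow_le_pow_left₀ (by positivity) (by linarith) m
  have key : ∀ z : ℝ, 0 ≤ z → z ≤ ε → (1 + (W : ℝ) / T) ^ m * (1 + z) ≤ 1 + ζ := by
    intro z hz0 hz
    calc (1 + (W : ℝ) / T) ^ m * (1 + z) ≤ (1 + ε) ^ m * (1 + ε) :=
          mul_le_mul b1 (by linarith) (by linarith) (by positivity)
      _ = (1 + ε) ^ (m + 1) := by ring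
      _ ≤ _ := hpow
  have hX : 0 ≤ (H : ℝ) / q * P := mul_nonneg (by positivity) hP0
  have hq1 : (q : ℝ) ≠ 0 := by positivity
  have hW1 : (W : ℝ) ≠ 0 := by positivity
  have hH1 : (H : ℝ) ≠ 0 := hH0.ne'
  constructor
  · have k1 := key ((1 + D) * W / H) (by positivity) a2
    have e : (W : ℝ) / q * pp W A T * ((H : ℝ) / W + 1 + D) =
        ((H : ℝ) / q * P) * ((1 + (W : ℝ) / T) ^ m * (1 + (1 + D) * W / H)) := by
      rw [hpp]
      generalize (1 + (W : ℝ) / T) ^ m = X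
      have e1 : (W : ℝ) / q * ((H : ℝ) / W + 1 + D) = (H : ℝ) / q * (1 + (1 + D) * W / H) := by
        field_simp
        ring
      calc (W : ℝ) / q * (P * X) * ((H : ℝ) / W + 1 + D) =
          ((W : ℝ) / q * ((H : ℝ) / W + 1 + D)) * (P * X) := by ring
        _ = _ := by rw [e1]; ring
    rw [e, hmm, mul_comm (1 + ζ)]
    exact mul_le_mul_of_nonneg_left k1 hX
  · have k1 := key ((q : ℝ) / H) (by positivity) a3
    have e : ((H : ℝ) / q + 1) * pp W A T =
        ((H : ℝ) / q * P) * ((1 + (W : ℝ) / T) ^ m * (1 + q / H)) := by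
      rw [hpp]
      generalize (1 + (W : ℝ) / T) ^ m = X
      have e1 : (H : ℝ) / q + 1 = (H : ℝ) / q * (1 + q / H) := by
        field_simp
      rw [e1]
      ring
    rw [e, hmm, mul_comm (1 + ζ)]
    exact mul_le_mul_of_nonneg_left k1 hX

end Pool.Agent.H19.MCL
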